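import Pool.Agent.H411R2.WSK.Kag
import Pool.Agent.H411R2.WSK.K2

/-!
The WSK dynamics for 3 colours on the `n × n` periodic kagome lattice is ergodic exactly for `n = 2`.
-/

namespace Pool.Agent.Results.MP_11305c_co.KagomeThreeColours

open Pool.Agent.H411R2.WSK

theorem result : ∀ n : ℕ, 2 ≤ n → (WSKErgodic (kagome n) 3 ↔ n = 2) := by
  intro n hn
  constructor
  · intro h
    by_contra hcon
    exact kagome_not_ergodic (by omega) h
  · rintro rfl
    exact K2.ergodic

end Pool.Agent.Results.MP_11305c_co.KagomeThreeColours
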