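import Pool.Agent.H411R2.WSK.TriNon
import Pool.Agent.H411R2.WSK.T3
import Pool.Agent.H411R2.WSK.T4
import Pool.Agent.H411R2.WSK.T5
import Pool.Agent.H411R2.WSK.T7top

/-!
The WSK dynamics for 4 colours on the `n × n` periodic triangular lattice is ergodic exactly for
`n = 3, 4, 5, 7`.
-/

namespace Pool.Agent.Results.MP_11305c_co.TriangularFourColours

open Pool.Agent.H411R2.WSK

theorem result : ∀ n : ℕ, 3 ≤ n →
    (WSKErgodic (triangular n) 4 ↔ n = 3 ∨ n = 4 ∨ n = 5 ∨ n = 7) := by
  intro n hn
  constructor
  · intro h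
    by_contra hcon
    exact triangular_not_ergodic (by omega) h
  · rintro (rfl | rfl | rfl | rfl)
    · exact T3.ergodic
    · exact T4.ergodic
    · exact T5.ergodic
    · exact T7.ergodic

end Pool.Agent.Results.MP_11305c_co.TriangularFourColours
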